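import Mathlib
import Pool.Agent.N28.DW.Ratio

/-!
# Ratios of successive critical values for all Artin twists, with zeros

Let `F` be a totally imaginary number field, `M₀` a pure motive of rank `n` over `F` with coefficients
in a number field `E₀`, without middle Hodge type, such that `c` and `c + 1` are critical for
`Res_{F/ℚ} M₀`. Let `K/F` be a Galois extension with the finite group `G`, and let `E` be a number field
which contains `E₀` and the roots of unity of order the exponent of `G`. The twist `M₀ ⊗ ρ` by a
representation `ρ` of `G` over `E` is a pure motive of rank `n dim ρ` with the same critical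
integers.

* `L τ χ`, for an embedding `τ` of `E₀` and an irreducible complex character `χ` of `G`, is the completed
  L-function of the twist of `M₀` (at `τ`) by `χ`; it is holomorphic at `c` and `c + 1`, and not zero at
  `c + 1`. (If `c` is not the centre of the functional equation it does not vanish at `c`
  either; but it may vanish at the centre, with any multiplicity.) L-functions of direct sums are
  products.
* `half` is `[F : ℚ] / 2`, and `Δ` is the number `Δ_F` of the problem.

So `Holds f d` is the assertion of the problem for the motive `M₀ ⊗ ρ`, if `ρ` has the character `f` and the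
dimension `d`:
`L(c, M₀ ⊗ ρ) / L(c + 1, M₀ ⊗ ρ) = (e ⊗ 1) (1 ⊗ i ^ (d_F / 2) Δ_F) ^ (n d)` with `e ∈ E`. We must allow `e = 0`,
since the value at the centre may be zero; if it is not zero at one embedding, then `e ≠ 0`, and
we have the equality in `(E ⊗ ℂ) / E^×`. The twists by the monomial characters `Ind_U^G ψ`
are the twists of the base change of `M₀` to the subfields `K^U` by characters of finite order.

The theorem: if the assertion holds for the twists by the monomial characters, then it holds for
the twists by all representations of `G`, when there are few zeros at `c`. If there are no zeros this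
is Brauer's theorem on induced characters, but this theorem needs quotients of L-values. Let
`ord U` be the order at `c` of the L-function of `M₀` over the field `K^U`, at one embedding. One of the
following two conditions is sufficient.

(1) No primitive extension inside `K` has a new zero: if `A` is normal in `H ≤ G` and `H / A` is a
primitive linear group, then there is `B` with `A < B ≤ H`, normal in `H`, such that `ord B = ord A`.

(2) `E₀` is linearly disjoint from the field of the roots of unity of order the exponent of `G` (for
instance `E₀ = ℚ`), no twist by a character induced from the two-dimensional irreducible character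
of a quaternion section of `G` has a simple zero at `c` (this follows from the functional equation if
`M₀` is self-dual), and at most three zeros of the L-function over `K` do not come from the largest Galois
subextension with abelian Sylow 2-subgroups, at most five do not come from the one with abelian
Sylow 3-subgroups, and for all primes `p ≥ 5` at most `p - 2` do not come from the largest Galois
subextension of degree prime to `p`; or fewer than `p (p - 1)` do not come from the one with abelian
Sylow `p`-subgroups, and no quasisimple section of `G` has order divisible by `p`. All this is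
true for any `G` if the L-function over `K` has at most three zeros at `c`.
-/

set_option autoImplicit false

open Pool.Agent.H302R2 Pool.Agent.H541R3.ART Pool.Agent.R389 Filter Topology

namespace Pool.Agent.Results.MP_c63a07_nt.ArtinTwists

/-- The completed L-functions of the twists of a motive with coefficients in `E₀` by the irreducible
characters of the finite group `G`, near the critical point `c` and at `c + 1`. -/
structure TwistData (G : Type) [Group G] (E₀ : Type) [Field E₀] (c : ℂ) where
  /-- the component at `τ` of the completed L-function of the twist by `χ` -/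
  L : (E₀ →+* ℂ) → (G → ℂ) → ℂ → ℂ
  /-- the rank of the motive -/
  n : ℕ
  /-- half of the degree of the base field -/
  half : ℕ
  /-- the number `Δ_F` -/
  Δ : ℂ
  disc : Δ ≠ 0
  /-- the L-functions are meromorphic at `c` and not identically zero near `c` -/
  mero : ∀ τ, ∀ χ ∈ Irr G, MeromorphicAt (L τ χ) c ∧ meromorphicOrderAt (L τ χ) c ≠ ⊤
  /-- the L-functions have no pole at `c` -/
  holo : ∀ τ, ∀ χ ∈ Irr G, 0 ≤ meromorphicOrderAt (L τ χ) c
  /-- the L-functions are holomorphic and not zero at `c + 1` -/
  next : ∀ τ, ∀ χ ∈ Irr G, AnalyticAt ℂ (L τ χ) (c + 1) ∧ L τ χ (c + 1) ≠ 0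

variable {G : Type} [Group G] {E₀ : Type} [Field E₀] {E : Type} [Field E] {c : ℂ}

/-- the L-function, at the embedding `τ`, of the twist by the complex representation which contains
`m χ` times the irreducible representation with the character `χ` -/
noncomputable def TwistData.lfun (D : TwistData G E₀ c) (τ : E₀ →+* ℂ) (m : (G → ℂ) → ℕ) (s : ℂ) :
    ℂ :=
  ∏ᶠ χ ∈ Irr G, D.L τ χ s ^ m χ

/-- The ratio of the values at `c` and `c + 1` of the L-function of the twist by the
`d`-dimensional representation over `E` with the character `f` is
`(e ⊗ 1) (1 ⊗ i ^ (d_F / 2) Δ_F) ^ (n d)`. -/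
def TwistData.RatioIs [Algebra E₀ E] (D : TwistData G E₀ c) (f : G → E) (d : ℕ) (e : E) : Prop :=
  ∀ (τ : E →+* ℂ) (m : (G → ℂ) → ℕ), IsDecomp (fun g => τ (f g)) m →
    Tendsto (fun s => D.lfun (τ.comp (algebraMap E₀ E)) m s /
      D.lfun (τ.comp (algebraMap E₀ E)) m (s + 1)) (𝓝[≠] c)
      (𝓝 (τ e * (Complex.I ^ D.half * D.Δ) ^ (D.n * d)))

/-- The character of the permutation representation of `G` on the cosets of `U`. The twist by it is
the base change of the motive to the fixed field of `U`. -/
noncomputable def perm (U : Subgroup G) : G → ℂ := ind U (fun _ => (1 : ℂ))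

/-- `k` is the order at `c` of the L-function, at the embedding `τ`, of the twist by a complex
representation with the character `f`. -/
def TwistData.HasOrder (D : TwistData G E₀ c) (τ : E₀ →+* ℂ) (f : G → ℂ) (k : ℤ) : Prop :=
  ∃ m : (G → ℂ) → ℕ, IsDecomp f m ∧ meromorphicOrderAt (D.lfun τ m) c = k

/-- `X` has a faithful irreducible complex representation of degree at least two which is not induced
from a proper subgroup. -/
def Primitive (X : Type) [Group X] : Prop :=
  ∃ ψ ∈ Irr X, ψ 1 ≠ 1 ∧ (∀ x, ψ x = ψ 1 → x = 1) ∧
    ∀ (U : Subgroup X) (φ : U → ℂ), U ≠ ⊤ → φ ∈ Irr U → ψ ≠ ind U φ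

/-- the subgroup generated by the elements of `p`-power order -/
def pGenerated (p : ℕ) (G : Type) [Group G] : Subgroup G :=
  Subgroup.closure {x | ∃ k : ℕ, x ^ p ^ k = 1}

/-- the subgroup generated by the commutator subgroups of the `p`-subgroups -/
def pDerived (p : ℕ) (G : Type) [Group G] : Subgroup G :=
  ⨆ Q : {Q : Subgroup G // IsPGroup p Q}, ⁅(Q : Subgroup G), (Q : Subgroup G)⁆

/-- `X` is isomorphic to a quotient of a subgroup of `G`. -/
def IsSection (G X : Type) [Group G] [Group X] : Prop :=
  ∃ (H : Subgroup G) (q : H →* X), Function.Surjective q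

/-- `T` is a nontrivial perfect group all of whose proper normal subgroups are central. -/
def Quasisimple (T : Type) [Group T] : Prop :=
  (∃ t : T, t ≠ 1) ∧ commutator T = ⊤ ∧ ∀ N : Subgroup T, N.Normal → N = ⊤ ∨ N ≤ Subgroup.center T

/-- Condition (1): primitive extensions have no new zeros. -/
def NoNewZeros (G : Type) [Group G] (ord : Subgroup G → ℤ) : Prop :=
  ∀ A H : Subgroup G, A ≤ H → ∀ [(A.subgroupOf H).Normal], Primitive (H ⧸ A.subgroupOf H) →
    ∃ B : Subgroup G, A < B ∧ B ≤ H ∧ (B.subgroupOf H).Normal ∧ ord B = ord A

/-- The numerical part of condition (2). It is true if `ord` has nonnegative values and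
`ord ⊥ ≤ 3`. -/
def FewZeros (G : Type) [Group G] (ord : Subgroup G → ℤ) : Prop :=
  ord ⊥ ≤ ord (pDerived 2 G) + 3 ∧ ord ⊥ ≤ ord (pDerived 3 G) + 5 ∧
    ∀ p : ℕ, p.Prime → 5 ≤ p → ord ⊥ < ord (pGenerated p G) + (p - 1) ∨
      (ord ⊥ < ord (pDerived p G) + p * (p - 1) ∧
        ∀ (T : Type) [Group T] [Finite T], IsSection G T → Quasisimple T → ¬ p ∣ Nat.card T)

theorem derP_eq (p : ℕ) (G : Type) [Group G] :
    Pool.Agent.N28.DL.derP p (⊤ : Subgroup G) = pDerived p G := by
  apply le_antisymm
  · refine iSup_le fun Q => ?_
    exact le_iSup (fun Q : {Q : Subgroup G // IsPGroup p Q} =>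
      ⁅(Q : Subgroup G), (Q : Subgroup G)⁆) ⟨Q, Q.2.2⟩
  · exact iSup_le fun Q => Pool.Agent.N28.DL.derP_le le_top Q.2

/-- **Ratios of successive critical values for all Artin twists.** Suppose that for each monomial
character `Ind_U^G ψ` the ratio of the values of the twist is given by the formula of the problem with
some `e ∈ E`. Let `ord U` be the order at `c` of the L-function of the base change to the fixed field of
`U`, for one embedding. Suppose `NoNewZeros G ord`; or that `E₀` is linearly disjoint from the field of
the roots of unity of order the exponent of `G`, that the quaternion twists have no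
simple zeros, and `FewZeros G ord`. Then for every representation `ρ` of `G` over `E` the ratio for
the twist by `ρ` is given by the formula of the problem with some `e ∈ E`, and `e ≠ 0` as soon as the
L-function of the twist does not vanish at `c` for one embedding. -/
theorem result (G : Type) [Group G] [Finite G] (E₀ : Type) [Field E₀] (E : Type) [Field E]
    [NumberField E] [Algebra E₀ E] (ζ : E) (hζ : IsPrimitiveRoot ζ (Monoid.exponent G)) (c : ℂ)
    (D : TwistData G E₀ c)
    (hmon : ∀ (U : Subgroup G) (ψ : U →* Eˣ),
      ∃ e : E, D.RatioIs (ind U (fun u => ((ψ u : Eˣ) : E))) U.index e)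
    (τ₀ : E →+* ℂ) (ord : Subgroup G → ℤ)
    (hord : ∀ U : Subgroup G, D.HasOrder (τ₀.comp (algebraMap E₀ E)) (perm U) (ord U))
    (hzeros : NoNewZeros G ord ∨
      ((∀ q : ℕ, q ∣ Monoid.exponent G → Module.finrank E₀ (CyclotomicField q E₀) = q.totient) ∧
        (∀ (H : Subgroup G) (q : H →* QuaternionGroup 2), Function.Surjective q →
          ¬ D.HasOrder (τ₀.comp (algebraMap E₀ E)) (ind H (fun h => quatChar (q h))) 1) ∧
        FewZeros G ord))
    (V : Type) [AddCommGroup V] [Module E V] [FiniteDimensional E V] (ρ : Representation E G V) :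
    ∃ e : E, D.RatioIs ρ.character (Module.finrank E V) e ∧
      ∀ (τ : E →+* ℂ) (m : (G → ℂ) → ℕ), IsDecomp (fun g => τ (ρ.character g)) m →
        meromorphicOrderAt (D.lfun (τ.comp (algebraMap E₀ E)) m) c = 0 → e ≠ 0 := by
  have hκ : Complex.I ^ D.half * D.Δ ≠ 0 := mul_ne_zero (pow_ne_zero _ Complex.I_ne_zero) D.disc
  obtain ⟨e, he⟩ := Pool.Agent.N28.DL.main_ratio hζ hκ D.mero D.holo D.next (n := D.n) hmon τ₀ ord
    hord (by
      rcases hzeros with h | ⟨h1, h2, h3, h4, h5⟩
      · exact Or.inl h
      · refine Or.inr ⟨h1, fun H q hq m hm h => h2 H q hq ⟨m, hm, h⟩, ?_, ?_, fun p hp h => ?_⟩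
        · rw [derP_eq]; exact h3
        · rw [derP_eq]; exact h4
        · rw [derP_eq]; exact h5 p hp h) ρ
  refine ⟨e, he, fun τ m hm h0 he0 => ?_⟩
  have h1 := he τ m hm
  rw [he0, map_zero, zero_mul] at h1
  have h2 := Pool.Agent.N28.DL.rat_ords (D.mero (τ.comp (algebraMap E₀ E)))
    (D.next (τ.comp (algebraMap E₀ E))) m
  have h3 : (fun s => (∏ᶠ χ ∈ Irr G, D.L (τ.comp (algebraMap E₀ E)) χ s ^ m χ) /
      ∏ᶠ χ ∈ Irr G, D.L (τ.comp (algebraMap E₀ E)) χ (s + 1) ^ m χ) =
      fun s => ∏ᶠ χ ∈ Irr G, Pool.Agent.N28.DL.rat (D.L (τ.comp (algebraMap E₀ E))) χ s ^ m χ := by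
    funext s
    rw [finprod_irr (fun χ => D.L (τ.comp (algebraMap E₀ E)) χ s ^ m χ),
      finprod_irr (fun χ => D.L (τ.comp (algebraMap E₀ E)) χ (s + 1) ^ m χ),
      finprod_irr (fun χ => Pool.Agent.N28.DL.rat (D.L (τ.comp (algebraMap E₀ E))) χ s ^ m χ),
      ← Finset.prod_div_distrib]
    exact Finset.prod_congr rfl fun χ _ => by rw [Pool.Agent.N28.DL.rat, div_pow]
  rw [h3] at h1
  have hmer : MeromorphicAt (fun s => ∏ᶠ χ ∈ Irr G,
      Pool.Agent.N28.DL.rat (D.L (τ.comp (algebraMap E₀ E))) χ s ^ m χ) c := by
    have h4 : (fun s => ∏ᶠ χ ∈ Irr G,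
        Pool.Agent.N28.DL.rat (D.L (τ.comp (algebraMap E₀ E))) χ s ^ m χ)
        = fun s => ∏ χ ∈ irrF G,
          Pool.Agent.N28.DL.rat (D.L (τ.comp (algebraMap E₀ E))) χ s ^ m χ := by
      funext s
      exact finprod_irr _
    rw [h4]
    refine MeromorphicAt.fun_prod fun χ hχ => ?_
    exact (Pool.Agent.N28.DL.rat_order (D.mero _ χ (mem_irrF.mp hχ))
      (D.next _ χ (mem_irrF.mp hχ))).1.fun_pow _
  have h5 := (tendsto_zero_iff_meromorphicOrderAt_pos hmer).mp h1
  rw [h2] at h5
  exact absurd h0 h5.ne'

end Pool.Agent.Results.MP_c63a07_nt.ArtinTwists
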