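import Mathlib
import Pool.Agent.X255.RH.Main
import Pool.Agent.N534.DI.Per2

/-!
# The ratios `L(x) / L(x + 1)` at all roots of almost all integral polynomials

The question is about the ratio `L(m, M) / L(m + 1, M)` of the values of the L-function of a motive `M` at successive critical integers. Let
`L(s) = ∑ f(n) n^(-s)` be any Dirichlet series which converges absolutely in some half-plane, has an analytic continuation to `ℂ` outside a locally
finite set `S` in some half-plane `Re s ≤ σ`, and such that `f(p) ≠ 0` for infinitely many primes `p`; for the L-function of a motive `f(p)` is the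
trace of Frobenius (the sum of the traces over the places of degree one above `p`). Let `A` be a finite set of real numbers, for instance `{0, 1}`,
let `B` be a finite set of primes (the bad primes) and `K` an integer. We consider the numbers `q^(-x)`, `q ∈ B`, and `L^(k)(x + a)`, `a ∈ A`,
`0 ≤ k < K`, at ALL the roots `x` of an integral polynomial of degree `g` at which no `x + a` is in `S`; so `x` runs through algebraic numbers of
degree `g` with all their conjugates (rational numbers for `g = 1`).

We prove: for almost all integral polynomials with coefficients at most `T` these numbers, at all roots `x` together, satisfy no algebraic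
relation over number fields whose degree and whose field degree is at most `ω(T)` and whose height is at most `T ^ ω(T)`, where `ω(T) → ∞`; the
coefficients of the relations may contain arbitrary given complex numbers `ξ_0, ξ_1, …`. In particular `L(x) / L(x + 1)`, also multiplied by a
given complex number or by Euler factors at finitely many primes, is not algebraic in this range. If `M` is as in the question, the ratio of the
gamma factors at `x` and `x + 1` is a power of `2 π` times a rational function of `x` with rational coefficients, so the same holds for the completed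
L-function.

The proof is an application of `Pool.Agent.X255.RH.main_all` (values of algebraically independent functions at the roots of almost all
polynomials). That the functions are algebraically independent over `ℂ(x)` is proved in `Pool.Agent.N534.DI.aindepP'`, with the derivations
`f(n) ↦ v_p(n) f(n)` of the ring of arithmetic functions.
-/

set_option autoImplicit false

open Polynomial Filter Topology NumberField

namespace Pool.Agent.Results.MP_c63a07_nt.RatiosAtAllRoots

/-- `L` is the continuation of the Dirichlet series with the coefficients `f`, analytic outside `S`. -/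
structure Continuation (f : ℕ → ℂ) (L : ℂ → ℂ) (S : Set ℂ) : Prop where
  /-- there are only finitely many points of `S` in every disc -/
  locallyFinite : ∀ R : ℝ, (S ∩ Metric.closedBall 0 R).Finite
  /-- in some half-plane there is no point of `S`, and the series converges absolutely and has the sum `L` -/
  halfPlane : ∃ σ : ℝ, (∀ s ∈ S, s.re ≤ σ) ∧ ∀ s : ℂ, σ < s.re → LSeriesSummable f s ∧ L s = LSeries f s
  /-- `L` is analytic outside `S` -/
  analytic : AnalyticOnNhd ℂ L Sᶜ
  /-- there are infinitely many primes with nonzero coefficient -/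
  primes : ∀ N : ℕ, ∃ p, N < p ∧ p.Prime ∧ f p ≠ 0

/-- The integral vectors `a = (a_0, …, a_g)` with `|a_i| ≤ T`. -/
noncomputable def box (g T : ℕ) : Finset (Fin (g + 1) → ℤ) := Fintype.piFinset fun _ => Finset.Icc (-(T : ℤ)) (T : ℤ)

/-- The polynomial `a_0 + a_1 x + … + a_g x^g`. -/
noncomputable def poly {g : ℕ} (a : Fin (g + 1) → ℤ) : ℂ[X] := ∑ i, C (a i : ℂ) * X ^ (i : ℕ)

/-- The points `z` such that `z + a` is not in `S` for all `a` in `A`. -/
def dom (S : Set ℂ) (A : Finset ℝ) : Set ℂ := {z | ∃ a ∈ A, z + (a : ℂ) ∈ S}ᶜ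

/-- The roots in `dom S A` of the polynomial with the coefficients `a`. -/
noncomputable def roots {g : ℕ} (S : Set ℂ) (A : Finset ℝ) (a : Fin (g + 1) → ℤ) : Finset ℂ := by
  classical exact (poly a).roots.toFinset.filter fun z => z ∈ dom S A

/-- The names of the functions: `q ∈ B` stands for `q^(-x)`, and `(a, k)` stands for `L^(k)(x + a)`. -/
abbrev Index (B : Finset ℕ) (A : Finset ℝ) (K : ℕ) : Type := {q // q ∈ B} ⊕ ({a // a ∈ A} × Fin K)

/-- Equality of names is decidable. -/
noncomputable instance (B : Finset ℕ) (A : Finset ℝ) (K : ℕ) : DecidableEq (Index B A K) := inferInstance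

/-- The values. -/
noncomputable def values (L : ℂ → ℂ) {B : Finset ℕ} {A : Finset ℝ} {K : ℕ} : Index B A K → ℂ → ℂ
  | Sum.inl q, x => ((q : ℕ) : ℂ) ^ (-x)
  | Sum.inr j, x => iteratedDeriv j.2 L (x + ((j.1 : ℝ) : ℂ))

/-- The numbers `x q` satisfy no relation of degree at most `k` in each of them with coefficients `∑_{b < k} ξ_b c_b`, where the `c_b` are
integers of a number field of degree at most `k` all of whose conjugates are at most `T ^ k`, except the relations all of whose coefficients
vanish. -/
def NoRelation {Q : Type} [Fintype Q] [DecidableEq Q] (ξ : ℕ → ℂ) (k : ℕ) (T : ℝ) (x : Q → ℂ) : Prop :=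
  ∀ (F : Type) [Field F] [NumberField F], Module.finrank ℚ F ≤ k → ∀ (io : F →+* ℂ)
    (c : (Q → Fin (k + 1)) → Fin k → 𝓞 F), (∀ l b (φ : F →+* ℂ), ‖φ (c l b : F)‖ ≤ T ^ k) →
    ∑ l, (∑ b : Fin k, ξ b * io (c l b : F)) * ∏ q, x q ^ (l q : ℕ) = 0 → ∀ l, ∑ b : Fin k, ξ b * io (c l b : F) = 0

/-- The polynomial with the coefficients `a` has degree `g` and simple roots, and there is no relation between the numbers `q^(-x)` and
`L^(k)(x + a)` at all its roots in `dom S A` together. -/
def Good {g : ℕ} (L : ℂ → ℂ) (S : Set ℂ) (B : Finset ℕ) (A : Finset ℝ) (K : ℕ) (ξ : ℕ → ℂ) (k : ℕ) (T : ℝ) (a : Fin (g + 1) → ℤ) : Prop :=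
  a (Fin.last g) ≠ 0 ∧ (poly a).Separable ∧
    NoRelation ξ k T fun q : {x // x ∈ roots S A a} × Index B A K => values L q.2 q.1

section proofs

variable {f : ℕ → ℂ} {L : ℂ → ℂ} {S : Set ℂ} {A : Finset ℝ} {K : ℕ}

theorem bad_finite (hS : ∀ R : ℝ, (S ∩ Metric.closedBall 0 R).Finite) (A : Finset ℝ) (R : ℝ) :
    ({z | ∃ a ∈ A, z + (a : ℂ) ∈ S} ∩ Metric.closedBall 0 R).Finite := by
  refine (Set.Finite.biUnion A.finite_toSet fun a _ => (hS (R + |a|)).image fun z => z - (a : ℂ)).subset ?_
  rintro z ⟨⟨a, ha, hz⟩, hzR⟩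
  rw [Set.mem_iUnion₂]
  refine ⟨a, ha, z + a, ⟨hz, ?_⟩, by ring⟩
  rw [mem_closedBall_zero_iff] at hzR ⊢
  refine (norm_add_le _ _).trans (add_le_add hzR ?_)
  rw [Complex.norm_real, Real.norm_eq_abs]

theorem closed_of {D : Set ℂ} (hD : ∀ R : ℝ, (D ∩ Metric.closedBall 0 R).Finite) : IsClosed D := by
  refine isClosed_of_closure_subset fun z hz => ?_
  have h1 : z ∈ closure (Metric.ball z 1 ∩ D) := Metric.isOpen_ball.inter_closure ⟨Metric.mem_ball_self one_pos, hz⟩
  have h2 : Metric.ball z 1 ∩ D ⊆ D ∩ Metric.closedBall 0 (‖z‖ + 1) := by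
    rintro w ⟨hw, hwD⟩
    refine ⟨hwD, ?_⟩
    rw [mem_closedBall_zero_iff]
    rw [Metric.mem_ball, dist_eq_norm] at hw
    have := norm_sub_norm_le w z
    linarith
  have h3 := closure_mono h2 h1
  rw [(hD _).isClosed.closure_eq] at h3
  exact h3.1

theorem countable_of {D : Set ℂ} (hD : ∀ R : ℝ, (D ∩ Metric.closedBall 0 R).Finite) : D.Countable := by
  have h1 : D = ⋃ n : ℕ, D ∩ Metric.closedBall 0 n := by
    rw [← Set.inter_iUnion, Metric.iUnion_closedBall_nat, Set.inter_univ]
  rw [h1]
  exact Set.countable_iUnion fun n => (hD n).countable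

theorem an (h : Continuation f L S) {B : Finset ℕ} (hB : ∀ q ∈ B, q.Prime) (j : Index B A K) :
    AnalyticOnNhd ℂ (values L j) (dom S A) := by
  intro z hz
  rcases j with ⟨q, hq⟩ | j
  · have hq0 : ((q : ℕ) : ℂ) ∈ Complex.slitPlane := by
      rw [Complex.natCast_mem_slitPlane]
      exact (hB q hq).ne_zero
    exact AnalyticAt.cpow (g := fun x : ℂ => -x) analyticAt_const analyticAt_id.neg hq0
  · have h1 : z + ((j.1 : ℝ) : ℂ) ∈ Sᶜ := fun h' => hz ⟨j.1, j.1.2, h'⟩
    have h2 : AnalyticOnNhd ℂ (iteratedDeriv j.2 L) Sᶜ := by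
      rw [iteratedDeriv_eq_iterate]
      exact h.analytic.iterated_deriv j.2
    exact AnalyticAt.fun_comp (g := iteratedDeriv j.2 L) (f := fun x => x + ((j.1 : ℝ) : ℂ)) (h2 _ h1)
      (analyticAt_id.add analyticAt_const)

/-- the embedding of the names -/
def emb (B : Finset ℕ) (A : Finset ℝ) (K : ℕ) : Option (Index B A K) → Option ({q // q ∈ B} ⊕ Pool.Agent.N534.DI.JP Unit 1 A K)
  | none => none
  | some (Sum.inl q) => some (Sum.inl q)
  | some (Sum.inr j) => some (Sum.inr ((), ((0 : Fin 1), j)))

theorem emb_inj (B : Finset ℕ) (A : Finset ℝ) (K : ℕ) : Function.Injective (emb B A K) := by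
  rintro (_ | _ | _) (_ | _ | _) h
  all_goals simp_all [emb]

theorem ind (h : Continuation f L S) {B : Finset ℕ} (hB : ∀ q ∈ B, q.Prime) :
    Pool.Agent.X255.RH.Indep (dom S A) (values L (B := B) (A := A) (K := K)) := by
  obtain ⟨σ, hσ1, hσ2⟩ := h.halfPlane
  obtain ⟨R, hR⟩ : ∃ R : ℝ, ∀ a ∈ A, σ - a ≤ R := by
    obtain ⟨R, hR⟩ := (A.image fun a => σ - a).exists_le
    exact ⟨R, fun a ha => hR _ (Finset.mem_image_of_mem _ ha)⟩
  refine Pool.Agent.X255.RH.indep_of_aindepS fun P hP => ?_
  refine MvPolynomial.rename_injective _ (emb_inj B A K) ?_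
  rw [map_zero]
  refine Pool.Agent.N534.DI.aindepP' σ B hB (fun _ : Unit => f) (Pool.Agent.N534.DI.sepP_single f h.primes) (fun _ => L)
    (fun _ => LSeries.abscissaOfAbsConv_le_of_forall_lt_LSeriesSummable' fun y hy => ?_) (fun _ s hs => (hσ2 s hs).2) R _ fun x hx => ?_
  · exact (hσ2 y (by exact_mod_cast hy)).1
  · rw [MvPolynomial.eval_rename]
    have hx' : (x : ℂ) ∈ dom S A := by
      rintro ⟨a, ha, hz⟩
      have h1 := hσ1 _ hz
      rw [← Complex.ofReal_add, Complex.ofReal_re] at h1
      have h2 := hR a ha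
      linarith
    refine Eq.trans ?_ (hP (x : ℂ) hx')
    congr 1
    congr 1
    funext o
    rcases o with _ | _ | j
    · rfl
    · rfl
    · change iteratedDeriv j.2 L ((((0 + 1 : ℕ) : ℂ)) * x + ((j.1 : ℝ) : ℂ)) = iteratedDeriv j.2 L (x + ((j.1 : ℝ) : ℂ))
      rw [zero_add, Nat.cast_one, one_mul]

end proofs

open scoped Classical in
/-- **All roots of almost all polynomials.** Let `L` be the continuation of the Dirichlet series with the coefficients `f` as above. For every degree
`g ≥ 1` and all complex numbers `ξ_0, ξ_1, …` there is a function `ω(T) → ∞` such that among the `(2 T + 1)^(g + 1)` integral polynomials with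
coefficients at most `T` at most the proportion `1 / ω(T)` is not good. -/
theorem result {f : ℕ → ℂ} {L : ℂ → ℂ} {S : Set ℂ} (h : Continuation f L S) (B : Finset ℕ) (hB : ∀ q ∈ B, q.Prime) (A : Finset ℝ) (K : ℕ)
    (g : ℕ) (hg : 0 < g) (ξ : ℕ → ℂ) :
    ∃ ω : ℕ → ℕ, Tendsto ω atTop atTop ∧ Monotone ω ∧ ∀ T : ℕ,
      ω T * ((box g T).filter fun a => ¬ Good L S B A K ξ (ω T) T a).card ≤ (box g T).card :=
  Pool.Agent.X255.RH.main_all hg
    ((countable_of (bad_finite h.locallyFinite A)).isConnected_compl_of_one_lt_rank (by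
      rw [Complex.rank_real_complex]; norm_num)).isPreconnected
    (closed_of (bad_finite h.locallyFinite A)).isOpen_compl (fun _ => dom S A)
    (fun _ => Pool.Agent.X255.RH.tame_of_discrete (bad_finite h.locallyFinite A)) (an h hB) (ind h hB) ξ

end Pool.Agent.Results.MP_c63a07_nt.RatiosAtAllRoots
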